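import Pool.Agent.R839.PrimB
import Pool.Agent.R839.PrimC

/-!
# Minimal growth of primitive conjugacy classes over all finite generating sets (Question Q2)

For every `k ≥ 2`, hence for every `k ≥ 3`, the infimum over all finite generating sets `S` of the
free group `F_k` of the exponential growth rate `γ(S)` of primitive conjugacy classes is `1`.
-/

namespace Pool.Agent.Results.MP_ee92d8_al.PrimitiveClassGrowth

open FreeGroup Pool.Agent.R839.Prim

/-- An element of the free group of rank `k` is primitive if it belongs to some basis. -/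
def IsPrim {k : ℕ} (g : FreeGroup (Fin k)) : Prop :=
  ∃ (ι : Type) (b : FreeGroupBasis ι (FreeGroup (Fin k))), g ∈ Set.range b

/-- The word length of `g` over the alphabet `S ∪ S⁻¹`. -/
noncomputable def wordLength {G : Type} [Group G] (S : Set G) (g : G) : ℕ :=
  sInf {n | ∃ l : List G, l.length = n ∧ (∀ s ∈ l, s ∈ S ∨ s⁻¹ ∈ S) ∧ l.prod = g}

/-- The smallest word length of an element of a conjugacy class. -/
noncomputable def conjLength {G : Type} [Group G] (S : Set G) (c : ConjClasses G) : ℕ :=
  sInf {n | ∃ g, ConjClasses.mk g = c ∧ wordLength S g = n}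

/-- The set of conjugacy classes of primitive elements with `S`-length equal to `N`. -/
def primClasses {k : ℕ} (S : Set (FreeGroup (Fin k))) (N : ℕ) :
    Set (ConjClasses (FreeGroup (Fin k))) :=
  {c | (∃ g, IsPrim g ∧ ConjClasses.mk g = c) ∧ conjLength S c = N}

/-- The exponential growth rate of primitive conjugacy classes with respect to `S`. -/
noncomputable def gamma {k : ℕ} (S : Set (FreeGroup (Fin k))) : ENNReal :=
  Filter.limsup (fun N : ℕ => ((primClasses S N).encard : ENNReal) ^ (1 / (N : ℝ))) Filter.atTop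

section General

variable {G : Type} [Group G]

theorem exists_list {S : Set G} (hS : Subgroup.closure S = ⊤) (g : G) :
    ∃ l : List G, l.length = wordLength S g ∧ (∀ s ∈ l, s ∈ S ∨ s⁻¹ ∈ S) ∧ l.prod = g := by
  have hne : {n | ∃ l : List G, l.length = n ∧ (∀ s ∈ l, s ∈ S ∨ s⁻¹ ∈ S) ∧
      l.prod = g}.Nonempty := by
    have hg : g ∈ (Subgroup.closure S).toSubmonoid := by rw [hS]; trivial
    rw [Subgroup.closure_toSubmonoid] at hg
    obtain ⟨l, hl, hp⟩ := Submonoid.exists_list_of_mem_closure hg
    refine ⟨l.length, l, rfl, ?_, hp⟩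
    intro s hs
    rcases hl s hs with h | h
    · left; exact h
    · right; exact h
  exact Nat.sInf_mem hne

theorem exists_rep (S : Set G) (c : ConjClasses G) :
    ∃ g, ConjClasses.mk g = c ∧ wordLength S g = conjLength S c := by
  have hne : {n | ∃ g, ConjClasses.mk g = c ∧ wordLength S g = n}.Nonempty := by
    obtain ⟨g, hg⟩ := ConjClasses.exists_rep c
    exact ⟨_, g, hg, rfl⟩
  exact Nat.sInf_mem hne

theorem finite_ball {S : Set G} (hfin : S.Finite) (hS : Subgroup.closure S = ⊤) (a : ℕ) :
    {g : G | wordLength S g < a}.Finite := by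
  classical
  set T : Set G := S ∪ S⁻¹ with hT
  have hTf : T.Finite := hfin.union hfin.inv
  have : Finite T := hTf.to_subtype
  have hl := List.finite_length_lt T a
  refine Set.Finite.subset (hl.image (fun l => (l.map (Subtype.val)).prod)) ?_
  intro g hg
  obtain ⟨l, h1, h2, h3⟩ := exists_list hS g
  have hmem : ∀ s ∈ l, s ∈ T := by
    intro s hs
    rcases h2 s hs with h | h
    · left; exact h
    · right; exact h
  refine ⟨l.attach.map (fun s => ⟨s.1, hmem s.1 s.2⟩), ?_, ?_⟩
  · show (l.attach.map _).length < a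
    rw [List.length_map, List.length_attach, h1]
    exact hg
  · simp only [List.map_map]
    rw [← h3]
    congr 1
    conv_rhs => rw [← List.attach_map_subtype_val l]
    rfl

end General

theorem isPrim_conj {k : ℕ} {g g' : FreeGroup (Fin k)} (hg : IsPrim g)
    (h : ConjClasses.mk g = ConjClasses.mk g') : IsPrim g' := by
  obtain ⟨ι, b, i, rfl⟩ := hg
  obtain ⟨c, hc⟩ := isConj_iff.1 (ConjClasses.mk_eq_mk_iff_isConj.1 h)
  refine ⟨ι, b.map (MulAut.conj c), i, ?_⟩
  rw [FreeGroupBasis.map_apply, MulAut.conj_apply, hc]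

section Lower

variable {k : ℕ}

theorem isPrim_mul (c0 c1 : Fin k) (hc : c0 ≠ c1) (m : ℕ) :
    IsPrim (FreeGroup.of c0 ^ m * FreeGroup.of c1) := by
  let f : FreeGroup (Fin k) →* FreeGroup (Fin k) :=
    FreeGroup.lift (fun i => if i = c1 then FreeGroup.of c0 ^ m * FreeGroup.of c1
      else FreeGroup.of i)
  let f' : FreeGroup (Fin k) →* FreeGroup (Fin k) :=
    FreeGroup.lift (fun i => if i = c1 then (FreeGroup.of c0 ^ m)⁻¹ * FreeGroup.of c1
      else FreeGroup.of i)
  have hf0 : f (FreeGroup.of c0) = FreeGroup.of c0 := by simp [f, hc]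
  have hf0' : f' (FreeGroup.of c0) = FreeGroup.of c0 := by simp [f', hc]
  have hf1 : f (FreeGroup.of c1) = FreeGroup.of c0 ^ m * FreeGroup.of c1 := by simp [f]
  have hf1' : f' (FreeGroup.of c1) = (FreeGroup.of c0 ^ m)⁻¹ * FreeGroup.of c1 := by simp [f']
  let e : FreeGroup (Fin k) ≃* FreeGroup (Fin k) := MonoidHom.toMulEquiv f f'
    (by
      ext i
      by_cases h : i = c1
      · subst h
        simp only [MonoidHom.comp_apply, MonoidHom.id_apply]
        rw [hf1, _root_.map_mul, _root_.map_pow, hf0', hf1']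
        group
      · simp only [MonoidHom.comp_apply, MonoidHom.id_apply]
        have h1 : f (FreeGroup.of i) = FreeGroup.of i := by simp [f, h]
        have h2 : f' (FreeGroup.of i) = FreeGroup.of i := by simp [f', h]
        rw [h1, h2])
    (by
      ext i
      by_cases h : i = c1
      · subst h
        simp only [MonoidHom.comp_apply, MonoidHom.id_apply]
        rw [hf1', _root_.map_mul, _root_.map_inv, _root_.map_pow, hf0, hf1]
        group
      · simp only [MonoidHom.comp_apply, MonoidHom.id_apply]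
        have h1 : f (FreeGroup.of i) = FreeGroup.of i := by simp [f, h]
        have h2 : f' (FreeGroup.of i) = FreeGroup.of i := by simp [f', h]
        rw [h2, h1])
  refine ⟨Fin k, (FreeGroupBasis.ofFreeGroup (Fin k)).map e, c1, ?_⟩
  rw [FreeGroupBasis.map_apply, FreeGroupBasis.ofFreeGroup_apply]
  exact hf1

theorem infinite_prim (hk : 2 ≤ k) :
    {c : ConjClasses (FreeGroup (Fin k)) | ∃ g, IsPrim g ∧ ConjClasses.mk g = c}.Infinite := by
  let c0 : Fin k := ⟨0, by omega⟩
  let c1 : Fin k := ⟨1, by omega⟩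
  have hc : c0 ≠ c1 := by simp [c0, c1]
  apply Set.infinite_of_injective_forall_mem (f := fun m : ℕ =>
    ConjClasses.mk (FreeGroup.of c0 ^ m * FreeGroup.of c1))
  · intro m m' h
    have h' := ConjClasses.mk_eq_mk_iff_isConj.1 h
    let χ : FreeGroup (Fin k) →* Multiplicative ℤ :=
      FreeGroup.lift (fun i => if i = c0 then Multiplicative.ofAdd 1 else 1)
    have h0 : χ (FreeGroup.of c0) = Multiplicative.ofAdd 1 := by simp [χ]
    have h1 : χ (FreeGroup.of c1) = 1 := by simp [χ, hc.symm]
    have h2 := χ.map_isConj h'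
    rw [isConj_iff_eq, _root_.map_mul, _root_.map_mul, _root_.map_pow, _root_.map_pow, h0, h1,
      mul_one, mul_one, ← ofAdd_nsmul, ← ofAdd_nsmul] at h2
    have h3 := Multiplicative.ofAdd.injective h2
    simpa using h3
  · intro m
    exact ⟨_, isPrim_mul c0 c1 hc m, rfl⟩

theorem one_le_gamma (hk : 2 ≤ k) {S : Set (FreeGroup (Fin k))} (hfin : S.Finite)
    (hS : Subgroup.closure S = ⊤) : 1 ≤ gamma S := by
  unfold gamma
  refine Filter.le_limsup_of_frequently_le ?_ (by isBoundedDefault)
  rw [Filter.frequently_atTop]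
  intro a
  have hex : ∃ N ≥ a + 1, (primClasses S N).Nonempty := by
    by_contra hcon
    push Not at hcon
    apply infinite_prim hk
    refine Set.Finite.subset ((finite_ball hfin hS (a + 1)).image ConjClasses.mk) ?_
    rintro c ⟨g, hg, rfl⟩
    obtain ⟨g', h1, h2⟩ := exists_rep S (ConjClasses.mk g)
    refine ⟨g', ?_, h1⟩
    show wordLength S g' < a + 1
    rw [h2]
    by_contra hlt
    have := hcon (conjLength S (ConjClasses.mk g)) (by omega)
    rw [← Set.not_nonempty_iff_eq_empty] at this
    exact this ⟨ConjClasses.mk g, ⟨g, hg, rfl⟩, rfl⟩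
  obtain ⟨N, hN, hne⟩ := hex
  refine ⟨N, by omega, ?_⟩
  have hNpos : (0 : ℝ) < N := by exact_mod_cast (by omega : 0 < N)
  have h1 : (1 : ENNReal) ≤ ((primClasses S N).encard : ENNReal) := by
    have : (1 : ℕ∞) ≤ (primClasses S N).encard := Set.one_le_encard_iff_nonempty.2 hne
    exact_mod_cast this
  exact ENNReal.one_le_rpow h1 (by positivity)

end Lower

section Upper

variable {k : ℕ}

/-- The generating sets `S_n`. -/
noncomputable def SS (d : Data k) (n : ℕ) : Finset (FreeGroup (Fin k)) := by
  classical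
  exact Finset.univ.image (genF n (FreeGroup.mk d.H) (fun i => FreeGroup.mk (d.G i)))

theorem mem_SS (d : Data k) (n : ℕ) (s : FreeGroup (Fin k)) :
    s ∈ (SS d n : Set (FreeGroup (Fin k))) ↔
      ∃ o, genF n (FreeGroup.mk d.H) (fun i => FreeGroup.mk (d.G i)) o = s := by
  simp [SS]

theorem SS_gen (d : Data k) (n : ℕ) :
    Subgroup.closure (SS d n : Set (FreeGroup (Fin k))) = ⊤ := by
  set K := Subgroup.closure (SS d n : Set (FreeGroup (Fin k))) with hK
  have hgen : ∀ o, genF n (FreeGroup.mk d.H) (fun i => FreeGroup.mk (d.G i)) o ∈ K := by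
    intro o
    apply Subgroup.subset_closure
    rw [mem_SS]
    exact ⟨o, rfl⟩
  have hh : FreeGroup.mk d.H ∈ K := hgen none
  have hg : ∀ i, FreeGroup.mk (d.G i) ∈ K := by
    intro i
    have h1 := hgen (some i)
    simp only [genF] at h1
    have h2 : FreeGroup.mk d.H ^ ((n : ℤ) * ((i.val : ℤ) + 1)) ∈ K := K.zpow_mem hh _
    rw [K.mul_mem_cancel_right h2, K.mul_mem_cancel_left h2] at h1
    exact h1
  have h0 : FreeGroup.of d.c0 ∈ K := by
    have := hg d.c0
    simp only [Data.G, if_true] at this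
    exact this
  rw [eq_top_iff, ← FreeGroup.closure_range_of, Subgroup.closure_le]
  rintro _ ⟨i, rfl⟩
  by_cases hi : i = d.c0
  · rw [hi]; exact h0
  · have h1 := hg i
    simp only [Data.G, hi, if_false] at h1
    have e : FreeGroup.mk [(d.c0, true), (i, true), (d.c0, true)] =
        FreeGroup.of d.c0 * FreeGroup.of i * FreeGroup.of d.c0 := by
      simp [FreeGroup.of, mul_mk]
    rw [e, K.mul_mem_cancel_right h0, K.mul_mem_cancel_left h0] at h1
    exact h1

theorem exists_word_rep (d : Data k) (n : ℕ) (l : List (FreeGroup (Fin k)))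
    (hl : ∀ s ∈ l, s ∈ (SS d n : Set (FreeGroup (Fin k))) ∨
      s⁻¹ ∈ (SS d n : Set (FreeGroup (Fin k)))) :
    ∃ L : List (Option (Fin k) × Bool), L.length = l.length ∧
      d.phi n (FreeGroup.mk L) = l.prod := by
  induction l with
  | nil => exact ⟨[], rfl, by rw [← one_eq_mk, _root_.map_one]; rfl⟩
  | cons s l ih =>
    obtain ⟨L, hL1, hL2⟩ := ih (fun s hs => hl s (List.mem_cons_of_mem _ hs))
    rcases hl s List.mem_cons_self with h | h
    · rw [mem_SS] at h
      obtain ⟨o, ho⟩ := h
      refine ⟨(o, true) :: L, by simp [hL1], ?_⟩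
      have : FreeGroup.mk ((o, true) :: L) = FreeGroup.of o * FreeGroup.mk L := by
        rw [FreeGroup.of, mul_mk]; rfl
      rw [this, _root_.map_mul, hL2, List.prod_cons, Data.phi, FreeGroup.lift_apply_of, ho]
    · rw [mem_SS] at h
      obtain ⟨o, ho⟩ := h
      refine ⟨(o, false) :: L, by simp [hL1], ?_⟩
      have : FreeGroup.mk ((o, false) :: L) = (FreeGroup.of o)⁻¹ * FreeGroup.mk L := by
        rw [FreeGroup.of, inv_mk, mul_mk]; rfl
      rw [this, _root_.map_mul, hL2, List.prod_cons, Data.phi, _root_.map_inv,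
        FreeGroup.lift_apply_of, ho, inv_inv]

/-- The main estimate: a primitive class of `S_{q+1}`-length `N` has a representative whose
reduced word `w` satisfies `|w| q ≤ N D`. -/
theorem main_estimate (hk : 2 ≤ k) (d : Data k) (q : ℕ) (hq : 1 ≤ q) (N : ℕ)
    (c : ConjClasses (FreeGroup (Fin k)))
    (hc : c ∈ primClasses (SS d (q + 1) : Set (FreeGroup (Fin k))) N) :
    ∃ w : List (Fin k × Bool), w.length * q ≤ N * d.D ∧ ConjClasses.mk (FreeGroup.mk w) = c := by
  obtain ⟨⟨g0, hg0, rfl⟩, hN⟩ := hc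
  obtain ⟨g1, h1, h2⟩ := exists_rep (SS d (q + 1) : Set (FreeGroup (Fin k))) (ConjClasses.mk g0)
  have hp1 : IsPrim g1 := isPrim_conj hg0 h1.symm
  obtain ⟨l, hl1, hl2, hl3⟩ := exists_list (SS_gen d (q + 1)) g1
  obtain ⟨L, hL1, hL2⟩ := exists_word_rep d (q + 1) l hl2
  have hLN : L.length = N := by rw [hL1, hl1, h2, hN]
  have hLg : d.phi (q + 1) (FreeGroup.mk L) = g1 := by rw [hL2, hl3]
  set w := reduceCyclically g1.toWord with hw
  set p : FreeGroup (Fin k) := FreeGroup.mk (reduceCyclically.conjugator g1.toWord) with hp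
  have hcyc : IsCyclicallyReduced w := reduceCyclically.isCyclicallyReduced isReduced_toWord
  have hg1 : g1 = p * FreeGroup.mk w * p⁻¹ := by
    rw [hp, hw, inv_mk, mul_mk, mul_mk, reduceCyclically.conj_conjugator_reduceCyclically,
      mk_toWord]
  have hcl : ConjClasses.mk (FreeGroup.mk w) = ConjClasses.mk g1 := by
    rw [ConjClasses.mk_eq_mk_iff_isConj, isConj_iff]
    exact ⟨p, hg1.symm⟩
  have hp2 : IsPrim (FreeGroup.mk w) := isPrim_conj hp1 hcl.symm
  have hwt : (FreeGroup.mk w).toWord = w := toWord_mk_of_reduced hcyc.isReduced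
  refine ⟨w, ?_, by rw [hcl, h1]⟩
  have key : ∀ m : ℕ, m * w.length ≤ p.toWord.length + ((N * m / q + 1) * d.D +
      p.toWord.length) := by
    intro m
    have hnf := not_full_primitive hk (g := FreeGroup.mk w) hp2 (by rw [hwt]; exact hcyc) m
    rw [hwt] at hnf
    have hQ1 : Qg (g1 ^ m) ((N * m / q + 1) * d.D) := by
      have e : g1 ^ m = d.phi (q + 1) (FreeGroup.mk (List.replicate m L).flatten) := by
        rw [← pow_mk, _root_.map_pow, hLg]
      rw [e]
      apply d.chunks
      rw [List.length_flatten, List.map_replicate, List.sum_replicate, hLN, smul_eq_mul]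
      have := Nat.lt_div_mul_add (a := N * m) (b := q) hq
      have e2 : (N * m / q + 1) * q = N * m / q * q + q := by ring
      rw [e2, mul_comm m N]
      omega
    have hQ2 : Qg (p⁻¹ * (g1 ^ m * p)) (p.toWord.length + ((N * m / q + 1) * d.D +
        p.toWord.length)) := by
      have hpi : Qg p⁻¹ p.toWord.length := by
        have e : (p⁻¹).toWord.length = p.toWord.length := by rw [toWord_inv, invRev_length]
        rw [← e]
        exact Q_length _
      exact hpi.mul (hQ1.mul (Q_length _))
    have e3 : p⁻¹ * (g1 ^ m * p) = FreeGroup.mk (List.replicate m w).flatten := by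
      rw [← pow_mk, hg1, conj_pow]
      group
    rw [e3] at hQ2
    unfold Qg at hQ2
    rw [toWord_mk_of_reduced (hcyc.flatten_replicate m).isReduced] at hQ2
    have := hQ2 _ List.infix_rfl hnf
    rw [List.length_flatten, List.map_replicate, List.sum_replicate, smul_eq_mul] at this
    exact this
  by_contra hcon
  push Not at hcon
  set A := p.toWord.length
  set M := 2 * A * q + q * d.D + 1 with hM
  have hk1 := key M
  have hdiv : N * M / q * q ≤ N * M := Nat.div_mul_le_self _ _
  have h5 : M * w.length * q ≤ (A + ((N * M / q + 1) * d.D + A)) * q :=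
    Nat.mul_le_mul_right _ hk1
  have h6 : (A + ((N * M / q + 1) * d.D + A)) * q =
      2 * A * q + (N * M / q * q) * d.D + q * d.D := by ring
  have h7 : (N * M / q * q) * d.D ≤ N * M * d.D := Nat.mul_le_mul_right _ hdiv
  have h8 : M * (N * d.D + 1) ≤ M * (w.length * q) := Nat.mul_le_mul_left _ hcon
  have h9 : M * (N * d.D + 1) = N * M * d.D + M := by ring
  have h10 : M * (w.length * q) = M * w.length * q := by ring
  omega

theorem encard_words (R : ℕ) :
    {w : List (Fin k × Bool) | w.length ≤ R}.encard ≤ ((2 * k + 1) ^ R : ℕ) := by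
  have h := Set.encard_le_encard_of_injOn (s := {w : List (Fin k × Bool) | w.length ≤ R})
    (t := (Set.univ : Set (Fin R → Option (Fin k × Bool))))
    (f := fun w => fun i : Fin R => w[(i : ℕ)]?) (fun _ _ => Set.mem_univ _) (by
      intro w hw w' hw' h
      apply List.ext_getElem?
      intro i
      by_cases hi : i < R
      · exact congrFun h ⟨i, hi⟩
      · have h1 : w.length ≤ R := hw
        have h2 : w'.length ≤ R := hw'
        rw [List.getElem?_eq_none (by omega), List.getElem?_eq_none (by omega)])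
  refine h.trans ?_
  rw [Set.encard_univ, ENat.card_eq_coe_fintype_card, Fintype.card_fun, Fintype.card_option,
    Fintype.card_prod, Fintype.card_fin, Fintype.card_bool, Fintype.card_fin]
  rw [mul_comm k 2]

theorem gamma_SS_le (hk : 2 ≤ k) (d : Data k) (q : ℕ) (hq : 1 ≤ q) :
    gamma (SS d (q + 1) : Set (FreeGroup (Fin k))) ≤
      ENNReal.ofReal ((2 * k + 1 : ℝ) ^ ((d.D : ℝ) / (q : ℝ))) := by
  unfold gamma
  apply Filter.limsup_le_of_le
  · isBoundedDefault
  rw [Filter.eventually_atTop]
  refine ⟨1, ?_⟩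
  intro N hN
  set R := N * d.D / q with hR
  have hcard : (primClasses (SS d (q + 1) : Set (FreeGroup (Fin k))) N).encard ≤
      ((2 * k + 1) ^ R : ℕ) := by
    have hsub : primClasses (SS d (q + 1) : Set (FreeGroup (Fin k))) N ⊆
        (fun w => ConjClasses.mk (FreeGroup.mk w)) ''
          {w : List (Fin k × Bool) | w.length ≤ R} := by
      intro c hc
      obtain ⟨w, hw1, hw2⟩ := main_estimate hk d q hq N c hc
      refine ⟨w, ?_, hw2⟩
      show w.length ≤ R
      rw [hR, Nat.le_div_iff_mul_le hq]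
      exact hw1
    exact (Set.encard_le_encard hsub).trans ((Set.encard_image_le _ _).trans (encard_words R))
  have h1 : ((primClasses (SS d (q + 1) : Set (FreeGroup (Fin k))) N).encard : ENNReal) ≤
      ENNReal.ofReal ((2 * k + 1 : ℝ) ^ (R : ℝ)) := by
    have h2 : ((primClasses (SS d (q + 1) : Set (FreeGroup (Fin k))) N).encard : ENNReal) ≤
        (((2 * k + 1) ^ R : ℕ) : ENNReal) := by
      exact_mod_cast hcard
    refine h2.trans (le_of_eq ?_)
    rw [Real.rpow_natCast]
    have : ((2 * k + 1 : ℝ) ^ R) = (((2 * k + 1) ^ R : ℕ) : ℝ) := by push_cast; ring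
    rw [this, ENNReal.ofReal_natCast]
  have hNpos : (0 : ℝ) < N := by exact_mod_cast hN
  have hqpos : (0 : ℝ) < q := by exact_mod_cast hq
  calc ((primClasses (SS d (q + 1) : Set (FreeGroup (Fin k))) N).encard : ENNReal) ^ (1 / (N : ℝ))
      ≤ (ENNReal.ofReal ((2 * k + 1 : ℝ) ^ (R : ℝ))) ^ (1 / (N : ℝ)) :=
        ENNReal.rpow_le_rpow h1 (by positivity)
    _ = ENNReal.ofReal (((2 * k + 1 : ℝ) ^ (R : ℝ)) ^ (1 / (N : ℝ))) := by
        rw [ENNReal.ofReal_rpow_of_pos (by positivity)]
    _ ≤ _ := by
        apply ENNReal.ofReal_le_ofReal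
        rw [← Real.rpow_mul (by positivity)]
        apply Real.rpow_le_rpow_of_exponent_le
        · have : (0 : ℝ) ≤ k := by positivity
          linarith
        · rw [mul_one_div, div_le_div_iff₀ hNpos hqpos]
          have : R * q ≤ N * d.D := Nat.div_mul_le_self _ _
          have h3 : (R : ℝ) * q ≤ N * d.D := by exact_mod_cast this
          linarith

end Upper

/-- **Question Q2.** For every `k ≥ 2` (in particular for every `k ≥ 3`), the infimum of `γ(S)` over
all finite generating sets `S` of the free group `F_k` is equal to `1`. -/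
theorem result (k : ℕ) (hk : 2 ≤ k) :
    ⨅ S : {S : Finset (FreeGroup (Fin k)) //
      Subgroup.closure (S : Set (FreeGroup (Fin k))) = ⊤},
        gamma (S.1 : Set (FreeGroup (Fin k))) = 1 := by
  apply le_antisymm
  · let c0 : Fin k := ⟨0, by omega⟩
    let c1 : Fin k := ⟨1, by omega⟩
    have hc : c0 ≠ c1 := by simp [c0, c1]
    obtain ⟨H, hH, hfull, hH1, hH2⟩ := exists_H c0 c1 hc
    let d : Data k := ⟨c0, c1, hc, H, hH, hfull, hH1, hH2⟩
    have hle : ∀ q : ℕ, (⨅ S : {S : Finset (FreeGroup (Fin k)) //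
        Subgroup.closure (S : Set (FreeGroup (Fin k))) = ⊤},
          gamma (S.1 : Set (FreeGroup (Fin k)))) ≤
        ENNReal.ofReal ((2 * k + 1 : ℝ) ^ ((d.D : ℝ) / ((q + 1 : ℕ) : ℝ))) := by
      intro q
      refine le_trans (iInf_le _ ⟨SS d (q + 1 + 1), SS_gen d _⟩) ?_
      exact gamma_SS_le hk d (q + 1) (by omega)
    have hlim : Filter.Tendsto (fun q : ℕ =>
        ENNReal.ofReal ((2 * k + 1 : ℝ) ^ ((d.D : ℝ) / ((q + 1 : ℕ) : ℝ)))) Filter.atTop
        (nhds (ENNReal.ofReal ((2 * k + 1 : ℝ) ^ (0 : ℝ)))) := by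
      apply ENNReal.tendsto_ofReal
      have h1 : Filter.Tendsto (fun q : ℕ => (d.D : ℝ) / ((q + 1 : ℕ) : ℝ)) Filter.atTop
          (nhds 0) := by
        apply Filter.Tendsto.div_atTop tendsto_const_nhds
        exact tendsto_natCast_atTop_atTop.comp (Filter.tendsto_add_atTop_nat 1)
      have h2 : ContinuousAt (fun x : ℝ => (2 * k + 1 : ℝ) ^ x) 0 :=
        Real.continuousAt_const_rpow (by positivity)
      exact h2.tendsto.comp h1
    rw [Real.rpow_zero, ENNReal.ofReal_one] at hlim
    exact ge_of_tendsto' hlim hle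
  · apply le_iInf
    rintro ⟨S, hS⟩
    exact one_le_gamma hk S.finite_toSet hS

end Pool.Agent.Results.MP_ee92d8_al.PrimitiveClassGrowth
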